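import Pool.Agent.LPK.Stmts

/-!
# Squad LPK, row EVA: values of the operations on polynomials
-/

set_option autoImplicit false

noncomputable section

namespace Pool.Agent.LPK.H27

open Pool.Agent.LPK

theorem e3_nil (A B H : ℝ) : e3 [] A B H = 0 := by simp [e3]

theorem e3_cons (t : ℤ × ℕ × ℕ × ℕ) (p : P3) (A B H : ℝ) :
    e3 (t :: p) A B H = (t.1 : ℝ) * A ^ t.2.1 * B ^ t.2.2.1 * H ^ t.2.2.2 + e3 p A B H := by
  simp [e3]

theorem e3_append (p q : P3) (A B H : ℝ) : e3 (p ++ q) A B H = e3 p A B H + e3 q A B H := by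
  simp [e3]

theorem e3_sc (c : ℤ) (p : P3) (A B H : ℝ) : e3 (sc c p) A B H = c * e3 p A B H := by
  induction p with
  | nil => simp [sc, e3]
  | cons t p ih =>
    have h : sc c (t :: p) = (c * t.1, t.2.1, t.2.2.1, t.2.2.2) :: sc c p := rfl
    rw [h, e3_cons, e3_cons, ih]
    push_cast
    ring

theorem e3_mA (p : P3) (A B H : ℝ) : e3 (mA p) A B H = A * e3 p A B H := by
  induction p with
  | nil => simp [mA, e3]
  | cons t p ih =>
    have h : mA (t :: p) = (t.1, t.2.1 + 1, t.2.2.1, t.2.2.2) :: mA p := rfl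
    rw [h, e3_cons, e3_cons, ih]
    ring

theorem e3_mB (p : P3) (A B H : ℝ) : e3 (mB p) A B H = B * e3 p A B H := by
  induction p with
  | nil => simp [mB, e3]
  | cons t p ih =>
    have h : mB (t :: p) = (t.1, t.2.1, t.2.2.1 + 1, t.2.2.2) :: mB p := rfl
    rw [h, e3_cons, e3_cons, ih]
    ring

theorem e3_mH (p : P3) (A B H : ℝ) : e3 (mH p) A B H = H * e3 p A B H := by
  induction p with
  | nil => simp [mH, e3]
  | cons t p ih =>
    have h : mH (t :: p) = (t.1, t.2.1, t.2.2.1, t.2.2.2 + 1) :: mH p := rfl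
    rw [h, e3_cons, e3_cons, ih]
    ring

theorem der_A (p : P3) (A B H : ℝ) :
    HasDerivAt (fun x => e3 p x B H) (e3 (dA p) A B H) A := by
  induction p with
  | nil =>
    have : (fun x => e3 [] x B H) = fun _ => (0 : ℝ) := by
      funext x
      exact e3_nil x B H
    rw [this]
    have h0 : e3 (dA []) A B H = 0 := e3_nil A B H
    rw [h0]
    exact hasDerivAt_const A (0 : ℝ)
  | cons t p ih =>
    have h : dA (t :: p) = (t.1 * t.2.1, t.2.1 - 1, t.2.2.1, t.2.2.2) :: dA p := rfl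
    have h1 : HasDerivAt (fun x : ℝ => (t.1 : ℝ) * x ^ t.2.1 * B ^ t.2.2.1 * H ^ t.2.2.2)
        ((t.1 : ℝ) * ((t.2.1 : ℝ) * A ^ (t.2.1 - 1)) * B ^ t.2.2.1 * H ^ t.2.2.2) A :=
      (((hasDerivAt_pow t.2.1 A).const_mul (t.1 : ℝ)).mul_const (B ^ t.2.2.1)).mul_const
        (H ^ t.2.2.2)
    have h2 : (fun x => e3 (t :: p) x B H) = fun x : ℝ =>
        (t.1 : ℝ) * x ^ t.2.1 * B ^ t.2.2.1 * H ^ t.2.2.2 + e3 p x B H := by
      funext x
      exact e3_cons t p x B H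
    rw [h2, h, e3_cons]
    have h3 : (((t.1 * t.2.1 : ℤ), t.2.1 - 1, t.2.2.1, t.2.2.2) : ℤ × ℕ × ℕ × ℕ).1 =
        t.1 * t.2.1 := rfl
    have h4 : (((t.1 * t.2.1 : ℤ) : ℝ) * A ^ (t.2.1 - 1) * B ^ t.2.2.1 * H ^ t.2.2.2) =
        (t.1 : ℝ) * ((t.2.1 : ℝ) * A ^ (t.2.1 - 1)) * B ^ t.2.2.1 * H ^ t.2.2.2 := by
      push_cast
      ring
    show HasDerivAt _ ((((t.1 * t.2.1 : ℤ) : ℝ) * A ^ (t.2.1 - 1) * B ^ t.2.2.1 * H ^ t.2.2.2) +
      e3 (dA p) A B H) A
    rw [h4]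
    exact h1.add ih

theorem der_H (p : P3) (A B H : ℝ) :
    HasDerivAt (fun x => e3 p A B x) (e3 (dH p) A B H) H := by
  induction p with
  | nil =>
    have : (fun x => e3 [] A B x) = fun _ => (0 : ℝ) := by
      funext x
      exact e3_nil A B x
    rw [this]
    have h0 : e3 (dH []) A B H = 0 := e3_nil A B H
    rw [h0]
    exact hasDerivAt_const H (0 : ℝ)
  | cons t p ih =>
    have h : dH (t :: p) = (t.1 * t.2.2.2, t.2.1, t.2.2.1, t.2.2.2 - 1) :: dH p := rfl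
    have h1 : HasDerivAt (fun x : ℝ => (t.1 : ℝ) * A ^ t.2.1 * B ^ t.2.2.1 * x ^ t.2.2.2)
        ((t.1 : ℝ) * A ^ t.2.1 * B ^ t.2.2.1 * ((t.2.2.2 : ℝ) * H ^ (t.2.2.2 - 1))) H :=
      (hasDerivAt_pow t.2.2.2 H).const_mul ((t.1 : ℝ) * A ^ t.2.1 * B ^ t.2.2.1)
    have h2 : (fun x => e3 (t :: p) A B x) = fun x : ℝ =>
        (t.1 : ℝ) * A ^ t.2.1 * B ^ t.2.2.1 * x ^ t.2.2.2 + e3 p A B x := by
      funext x
      exact e3_cons t p A B x
    rw [h2, h, e3_cons]
    have h4 : (((t.1 * t.2.2.2 : ℤ) : ℝ) * A ^ t.2.1 * B ^ t.2.2.1 * H ^ (t.2.2.2 - 1)) =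
        (t.1 : ℝ) * A ^ t.2.1 * B ^ t.2.2.1 * ((t.2.2.2 : ℝ) * H ^ (t.2.2.2 - 1)) := by
      push_cast
      ring
    show HasDerivAt _ ((((t.1 * t.2.2.2 : ℤ) : ℝ) * A ^ t.2.1 * B ^ t.2.2.1 *
      H ^ (t.2.2.2 - 1)) + e3 (dH p) A B H) H
    rw [h4]
    exact h1.add ih

/-! ### parity of the exponents of `H` -/

/-- the exponents of `H` have the parity of `r` -/
def Par (r : ℕ) (p : P3) : Prop := ∀ t ∈ p, t.1 ≠ 0 → (t.2.2.2 + r) % 2 = 0

theorem par_zero (p : P3) : Par 0 p ↔ Ev p := Iff.rfl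

theorem par_two {r : ℕ} {p : P3} (h : Par (r + 2) p) : Par r p := by
  intro t ht h0
  have := h t ht h0
  omega

theorem par_append {r : ℕ} {p q : P3} (hp : Par r p) (hq : Par r q) : Par r (p ++ q) := by
  intro t ht h0
  rcases List.mem_append.mp ht with h | h
  · exact hp t h h0
  · exact hq t h h0

theorem par_sc {r : ℕ} {p : P3} (c : ℤ) (hp : Par r p) : Par r (sc c p) := by
  intro t ht h0
  obtain ⟨s, hs, rfl⟩ := List.mem_map.mp ht
  exact hp s hs (fun h => h0 (by simp [h]))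

theorem par_mA {r : ℕ} {p : P3} (hp : Par r p) : Par r (mA p) := by
  intro t ht h0
  obtain ⟨s, hs, rfl⟩ := List.mem_map.mp ht
  exact hp s hs h0

theorem par_mB {r : ℕ} {p : P3} (hp : Par r p) : Par r (mB p) := by
  intro t ht h0
  obtain ⟨s, hs, rfl⟩ := List.mem_map.mp ht
  exact hp s hs h0

theorem par_mH {r : ℕ} {p : P3} (hp : Par r p) : Par (r + 1) (mH p) := by
  intro t ht h0
  obtain ⟨s, hs, rfl⟩ := List.mem_map.mp ht
  have := hp s hs h0
  show (s.2.2.2 + 1 + (r + 1)) % 2 = 0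
  omega

theorem par_dA {r : ℕ} {p : P3} (hp : Par r p) : Par r (dA p) := by
  intro t ht h0
  obtain ⟨s, hs, rfl⟩ := List.mem_map.mp ht
  exact hp s hs (fun h => h0 (by simp [h]))

theorem par_dH {r : ℕ} {p : P3} (hp : Par r p) : Par (r + 1) (dH p) := by
  intro t ht h0
  obtain ⟨s, hs, rfl⟩ := List.mem_map.mp ht
  have h1 := hp s hs (fun h => h0 (by simp [h]))
  have h2 : s.2.2.2 ≠ 0 := fun h => h0 (by simp [h])
  show (s.2.2.2 - 1 + (r + 1)) % 2 = 0
  omega

theorem par_opA {r : ℕ} (n : ℕ) {q : P3} (h : Par r q) : Par r (opA n q) := by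
  unfold opA
  have h2 : Par r (mH (dH q)) := par_two (par_mH (par_dH h))
  have h3 : Par r (mH (dA (dH q))) := par_two (par_mH (par_dA (par_dH h)))
  have h4 : Par r (mB (dH (dH q))) := par_mB (par_two (par_dH (par_dH h)))
  exact par_append (par_append (par_append (par_append (par_append (par_append (par_append
    (par_sc _ h) (par_sc _ (par_mA h))) (par_sc _ (par_mA (par_dA h)))) (par_sc _ h2))
    (par_sc _ (par_dA h))) (par_sc _ (par_mA (par_dA (par_dA h))))) (par_sc _ h3)) (par_sc _ h4)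

theorem par_opD {r : ℕ} {q : P3} (h : Par r q) : Par (r + 1) (opD q) := by
  unfold opD
  exact par_append (par_append (par_sc _ (par_mH (par_dA h))) (par_mB (par_dH h)))
    (par_sc _ (par_mH h))

theorem par_iter {f : P3 → P3} (hf : ∀ q, Par 0 q → Par 0 (f q)) (m : ℕ) (q : P3)
    (h : Par 0 q) : Par 0 (f^[m] q) := by
  induction m generalizing q with
  | zero => exact h
  | succ m ih =>
    rw [Function.iterate_succ_apply]
    exact ih (f q) (hf q h)

theorem par_tm (n i j k : ℕ) : Par 0 (tm n i j k) := by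
  unfold tm
  refine par_iter (fun q => par_mB) j _ (par_iter (fun q => par_opA n) i _
    (par_iter (fun q hq => ?_) k _ ?_))
  · exact par_sc _ (par_two (par_opD (par_opD hq)))
  · intro t ht _
    rw [List.mem_singleton] at ht
    subst ht
    rfl

theorem ev_T3 (n : ℕ) (p : P3) : Ev (T3 n p) := by
  rw [← par_zero]
  intro t ht h0
  unfold T3 at ht
  rw [List.mem_flatMap] at ht
  obtain ⟨s, _, hs⟩ := ht
  exact par_sc _ (par_tm n _ _ _) t hs h0

theorem e3_neg (p : P3) (A B H : ℝ) (h : Ev p) : e3 p A B (-H) = e3 p A B H := by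
  induction p with
  | nil => rw [e3_nil, e3_nil]
  | cons t p ih =>
    rw [e3_cons, e3_cons, ih (fun s hs => h s (List.mem_cons_of_mem _ hs))]
    by_cases h0 : t.1 = 0
    · rw [h0]
      simp
    · have h1 := h t List.mem_cons_self h0
      have h2 : Even t.2.2.2 := Nat.even_iff.mpr h1
      rw [h2.neg_pow]

/-- **EVA** -/
theorem eva : EvaStmt :=
  ⟨e3_append, e3_sc, fun p A B H => ⟨e3_mA p A B H, e3_mB p A B H, e3_mH p A B H⟩,
    fun p A B H => ⟨der_A p A B H, der_H p A B H⟩, fun n p _ => ev_T3 n p,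
    fun p A B H h => e3_neg p A B H h⟩

end Pool.Agent.LPK.H27
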